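import Pool.Agent.Y330.G.A9

/-!
# Transitivity of Anosov diffeomorphisms and the growth of the local unstable and stable sets
-/

set_option autoImplicit false

open scoped Manifold ContDiff Topology
open Set Filter

namespace Pool.Agent.N838.Shelf.GrowthCriterion

open Pool.Agent.H721R2 Pool.Agent.H789R2.AN

/-- `y` belongs to the local unstable set of `x` of size `ε`:
`d(g⁻ᵏ x, g⁻ᵏ y) ≤ ε` for all `k ≥ 0`. -/
def InLocalUnstable {M : Type*} [MetricSpace M] (g : M ≃ₜ M) (ε : ℝ) (x y : M) : Prop :=
  ∀ k : ℕ, dist (g.symm^[k] x) (g.symm^[k] y) ≤ ε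

/-- Any two different points of `F` are at distance more than `δ` after some number `k ≤ n` of
iterations of `g`. -/
def Separated {M : Type*} [MetricSpace M] (g : M ≃ₜ M) (δ : ℝ) (n : ℕ) (F : Finset M) : Prop :=
  ∀ y ∈ F, ∀ z ∈ F, y ≠ z → ∃ k ≤ n, δ < dist (g^[k] y) (g^[k] z)

/-- The growth number `N(g, ε, δ, n, x)`: the largest number of points of the local unstable set of
`x` of size `ε` that are `δ`-separated by `g` up to time `n`. -/
noncomputable def growth {M : Type*} [MetricSpace M] (g : M ≃ₜ M) (ε δ : ℝ) (n : ℕ) (x : M) : ℕ :=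
  sSup {m | ∃ F : Finset M, (∀ y ∈ F, InLocalUnstable g ε x y) ∧ Separated g δ n F ∧ F.card = m}

/-- The growth numbers of any two points are comparable, uniformly in the points and in the time. -/
def UniformGrowth {M : Type*} [MetricSpace M] (g : M ≃ₜ M) (ε δ : ℝ) : Prop :=
  ∃ C : ℕ, ∀ n x y, growth g ε δ n x ≤ C * growth g ε δ n y

lemma growth_eq {M : Type*} [MetricSpace M] (g : M ≃ₜ M) (ε δ : ℝ) (n : ℕ) (x : M) :
    growth g ε δ n x = Pool.Agent.Y330.G.P g ε δ n x := by
  unfold growth Pool.Agent.Y330.G.P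
  congr 1
  ext m
  constructor
  · rintro ⟨F, h1, h2, h3⟩
    exact ⟨F, ⟨h1, h2⟩, h3⟩
  · rintro ⟨F, ⟨h1, h2⟩, h3⟩
    exact ⟨F, h1, h2, h3⟩

/-- **Transitivity and the growth of the local unstable and stable sets.**
Let `f` be a `C¹` Anosov diffeomorphism of a closed connected manifold `M`, and fix any distance that
defines the topology of `M`.  There is `r > 0` such that for all `0 < ε, δ ≤ r` the following are
equivalent:
* `f` is topologically transitive;
* the growth numbers `N(f, ε, δ, n, x)`, `x ∈ M`, of the local unstable sets are all comparable, up to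
  a constant that depends neither on the points nor on `n`, and so are the growth numbers
  `N(f⁻¹, ε, δ, n, x)` of the local stable sets.

So an Anosov diffeomorphism that is not transitive would have local unstable sets (or local stable
sets) whose numbers of separated orbits grow at non-comparable speeds. -/
theorem result (E : Type*) [NormedAddCommGroup E] [NormedSpace ℝ E] [FiniteDimensional ℝ E]
    (M : Type*) [MetricSpace M] [CompactSpace M] [ConnectedSpace M]
    [ChartedSpace E M] [IsManifold 𝓘(ℝ, E) ∞ M] (f : Diffeomorph 𝓘(ℝ, E) 𝓘(ℝ, E) M M 1)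
    (Es Eu : ∀ x : M, Submodule ℝ (TangentSpace 𝓘(ℝ, E) x)) (hf : IsAnosov f Es Eu) :
    ∃ r : ℝ, 0 < r ∧ ∀ ε δ : ℝ, 0 < ε → ε ≤ r → 0 < δ → δ ≤ r →
      (TopTransitive f ↔
        UniformGrowth f.toHomeomorph ε δ ∧ UniformGrowth f.toHomeomorph.symm ε δ) := by
  obtain ⟨r, hr, h⟩ := Pool.Agent.Y330.G.man_growth f Es Eu hf
  refine ⟨r, hr, fun ε δ h1 h2 h3 h4 => ?_⟩
  simpa only [UniformGrowth, growth_eq] using h ε h1 h2 δ h3 h4

end Pool.Agent.N838.Shelf.GrowthCriterion
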