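import Pool.Agent.N838.BT.Final

/-!
# Bootstrap percolation on Galton-Watson trees: `f_r^GW(b) ≥ exp (-b / (r - 1))`

Proof. Let `F_k(y) = P(Bin(k, y) < r)`. If `x ∈ (0, 1]` satisfies `x ≤ (1 - p) E F_ξ(1 - x)` then
the root is not infected from below with probability at least `x`, and stable healthy sets exist
almost surely. If there is no such `x` then `(1 - p) E F_ξ(y) < 1 - y` for all `y` in `[0, 1)`. We
integrate this against `y ^ (-2)` over `[1 / m, 1]`. As the integral of `(1 - F_k(y)) y ^ (-2)` over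
`[0, 1]` is `k / (r - 1) - 1`, this gives `(1 - p) (m - b / (r - 1)) ≤ m - 1 - log m`, and
`m = exp (b / (r - 1))` gives `p ≥ 1 / (m - log m)`.
-/

open MeasureTheory

namespace Pool.Agent.Results.MP_12274d_pr.SharpLowerBound

open N838.BT

/-- `f_r^GW(b)`: the infimum of the critical probabilities `x = p_c(T_ξ, r)` (the almost sure value
of the critical probability of the tree) over all offspring laws `ξ` on `ℕ` with mean `b` and
`ξ {0} = 0`. -/
noncomputable def fGW (r : ℕ) (b : ℝ) : unitInterval :=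
  sInf {x : unitInterval | ∃ (ξ : Measure ℕ) (_ : IsProbabilityMeasure ξ), ξ {0} = 0 ∧
    ∫⁻ k, (k : ENNReal) ∂ξ = ENNReal.ofReal b ∧ ∀ᵐ T ∂(gw ξ), pc T r = x}

/-- For all `r ≥ 2` and all real `b ≥ r`: almost every Galton-Watson tree with an offspring law of
mean `b` without mass at `0` has critical probability at least `1 / (exp B - B)`, where
`B = b / (r - 1)`; hence `f_r^GW(b) ≥ exp (-b / (r - 1))`. -/
theorem result (r : ℕ) (hr : 2 ≤ r) (b : ℝ) (hb : (r : ℝ) ≤ b) :
    (∀ (ξ : Measure ℕ) [IsProbabilityMeasure ξ], ξ {0} = 0 →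
      ∫⁻ k, (k : ENNReal) ∂ξ = ENNReal.ofReal b →
      ∀ᵐ T ∂(gw ξ), 1 / (Real.exp (b / (r - 1)) - b / (r - 1)) ≤ (pc T r : ℝ)) ∧
    Real.exp (-(b / (r - 1))) ≤ (fGW r b : ℝ) := by
  refine ⟨fun ξ _ h0 h1 => pc_ge r hr ξ h0 b hb h1, ?_⟩
  set β := b / ((r : ℝ) - 1) with hβ
  have hr2 : (2 : ℝ) ≤ r := by exact_mod_cast hr
  have hβ0 : 0 ≤ β := div_nonneg (by linarith) (by linarith)
  have hle : (⟨Real.exp (-β), (Real.exp_pos _).le, Real.exp_le_one_iff.2 (by linarith)⟩ :
      unitInterval) ≤ fGW r b := by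
    unfold fGW
    refine le_sInf ?_
    rintro x ⟨ξ, hξ, h0, h1, hx⟩
    have h2 := pc_ge r hr ξ h0 b hb h1
    obtain ⟨T, hT1, hT2⟩ := (hx.and h2).exists
    have h3 : Real.exp (-β) ≤ 1 / (Real.exp β - β) := by
      have h4 := Real.add_one_le_exp β
      rw [Real.exp_neg, ← one_div]
      exact one_div_le_one_div_of_le (by linarith) (by linarith)
    rw [hT1] at hT2
    exact h3.trans hT2
  exact hle

end Pool.Agent.Results.MP_12274d_pr.SharpLowerBound
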